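import Pool.Agent.Helper97.Fuchs.Defs4

/-!
# FU-D1: Shimizu's lemma and the displacement estimate
-/

namespace Pool.Agent.Helper97.Fuchs

open MeasureTheory Matrix UpperHalfPlane Filter Topology
open scoped MatrixGroups ENNReal BigOperators

noncomputable section

namespace D1aux

lemma inv00 (g : SL(2, ℝ)) : g⁻¹ 0 0 = g 1 1 := by
  rw [Matrix.SpecialLinearGroup.coe_inv, Matrix.adjugate_fin_two]; simp
lemma inv01 (g : SL(2, ℝ)) : g⁻¹ 0 1 = - g 0 1 := by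
  rw [Matrix.SpecialLinearGroup.coe_inv, Matrix.adjugate_fin_two]; simp
lemma inv10 (g : SL(2, ℝ)) : g⁻¹ 1 0 = - g 1 0 := by
  rw [Matrix.SpecialLinearGroup.coe_inv, Matrix.adjugate_fin_two]; simp
lemma inv11 (g : SL(2, ℝ)) : g⁻¹ 1 1 = g 0 0 := by
  rw [Matrix.SpecialLinearGroup.coe_inv, Matrix.adjugate_fin_two]; simp

lemma U00 (x : ℝ) : (U x) 0 0 = 1 := rfl
lemma U01 (x : ℝ) : (U x) 0 1 = x := rfl
lemma U10 (x : ℝ) : (U x) 1 0 = 0 := rfl
lemma U11 (x : ℝ) : (U x) 1 1 = 1 := rfl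

lemma one00 : (1 : SL(2, ℝ)) 0 0 = 1 := rfl
lemma one01 : (1 : SL(2, ℝ)) 0 1 = 0 := rfl
lemma one10 : (1 : SL(2, ℝ)) 1 0 = 0 := rfl
lemma one11 : (1 : SL(2, ℝ)) 1 1 = 1 := rfl

lemma ext4 {g h : SL(2, ℝ)} (h00 : g 0 0 = h 0 0) (h01 : g 0 1 = h 0 1)
    (h10 : g 1 0 = h 1 0) (h11 : g 1 1 = h 1 1) : g = h := by
  ext i j
  fin_cases i <;> fin_cases j <;> assumption

lemma Uadd (x y : ℝ) : U (x + y) = U x * U y := by
  apply ext4 <;> simp [mul_apply', U00, U01, U10, U11, add_comm]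

lemma Uzero : U 0 = 1 := by
  apply ext4 <;> simp [U00, U01, U10, U11]

lemma Uneg (x : ℝ) : U (-x) = (U x)⁻¹ := by
  rw [eq_inv_iff_mul_eq_one, ← Uadd]; simp [Uzero]

lemma Unat (n : ℕ) : U (n : ℝ) = U 1 ^ n := by
  induction n with
  | zero => simp [Uzero]
  | succ n ih => rw [pow_succ, ← ih, ← Uadd]; push_cast; rfl

lemma Unat_mem {Γ : Subgroup SL(2, ℝ)} (hU : U 1 ∈ Γ) (n : ℕ) : U (n : ℝ) ∈ Γ := by
  rw [Unat]; exact pow_mem hU n

/-- discreteness in terms of the four entries -/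
lemma disc4 {ε : ℝ} {Γ : Subgroup SL(2, ℝ)} (hd : Disc ε Γ) {g : SL(2, ℝ)} (hg : g ∈ Γ)
    (h00 : |g 0 0 - 1| < ε) (h01 : |g 0 1| < ε) (h10 : |g 1 0| < ε) (h11 : |g 1 1 - 1| < ε) :
    g = 1 := by
  apply hd.2 g hg
  intro i j
  fin_cases i <;> fin_cases j
  · simpa [one00] using h00
  · simpa [one01] using h01
  · simpa [one10] using h10
  · simpa [one11] using h11

/-- the Shimizu iteration -/
def sh (g : SL(2, ℝ)) : SL(2, ℝ) := g * U 1 * g⁻¹

lemma sh00 (g : SL(2, ℝ)) : sh g 0 0 = 1 - g 0 0 * g 1 0 := by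
  have := det_eq g
  simp only [sh, mul_apply', U00, U01, U10, U11, inv00, inv01, inv10, inv11]
  linear_combination this
lemma sh01 (g : SL(2, ℝ)) : sh g 0 1 = g 0 0 ^ 2 := by
  simp only [sh, mul_apply', U00, U01, U10, U11, inv00, inv01, inv10, inv11]
  ring
lemma sh10 (g : SL(2, ℝ)) : sh g 1 0 = - g 1 0 ^ 2 := by
  simp only [sh, mul_apply', U00, U01, U10, U11, inv00, inv01, inv10, inv11]
  ring
lemma sh11 (g : SL(2, ℝ)) : sh g 1 1 = 1 + g 0 0 * g 1 0 := by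
  have := det_eq g
  simp only [sh, mul_apply', U00, U01, U10, U11, inv00, inv01, inv10, inv11]
  linear_combination this

lemma shimizu_c {ε : ℝ} {Γ : Subgroup SL(2, ℝ)} (hd : Disc ε Γ) (hU : U 1 ∈ Γ)
    (g : SL(2, ℝ)) (hg : g ∈ Γ) (h0 : g 1 0 ≠ 0) : 1 ≤ |g 1 0| := by
  by_contra hlt
  push Not at hlt
  set q := |g 1 0| with hq
  have hq0 : 0 < q := abs_pos.2 h0
  set G : ℕ → SL(2, ℝ) := fun k => sh^[k] g with hG
  have hGs : ∀ k, G (k + 1) = sh (G k) := by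
    intro k; simp only [hG]; rw [Function.iterate_succ_apply']
  have hmem : ∀ k, G k ∈ Γ := by
    intro k
    induction k with
    | zero => simpa [hG] using hg
    | succ k ih =>
      rw [hGs]; exact mul_mem (mul_mem ih hU) (inv_mem ih)
  have hne : ∀ k, (G k) 1 0 ≠ 0 := by
    intro k
    induction k with
    | zero => simpa [hG] using h0
    | succ k ih =>
      rw [hGs, sh10]
      simpa using ih
  have hc : ∀ k, |(G k) 1 0| ≤ q ^ (k + 1) := by
    intro k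
    induction k with
    | zero => simp [hG, hq]
    | succ k ih =>
      rw [hGs, sh10, abs_neg, abs_pow]
      have hqk : q ^ (k + 1) ≤ q := by
        calc q ^ (k + 1) ≤ q ^ 1 := pow_le_pow_of_le_one hq0.le hlt.le (by omega)
          _ = q := pow_one q
      calc |(G k) 1 0| ^ 2 = |(G k) 1 0| * |(G k) 1 0| := by ring
        _ ≤ q ^ (k + 1) * q := by
            apply mul_le_mul ih (ih.trans hqk) (abs_nonneg _) (by positivity)
        _ = q ^ (k + 1 + 1) := by ring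
  obtain ⟨B, hB1, hB2⟩ : ∃ B : ℝ, |g 0 0| ≤ B ∧ 1 + B * q ≤ B := by
    refine ⟨max |g 0 0| (1 / (1 - q)), le_max_left _ _, ?_⟩
    have h1 : 1 / (1 - q) ≤ max |g 0 0| (1 / (1 - q)) := le_max_right _ _
    have h2 : 0 < 1 - q := by linarith
    rw [div_le_iff₀ h2] at h1
    linarith
  have hB0 : 0 ≤ B := (abs_nonneg _).trans hB1
  have ha : ∀ k, |(G k) 0 0| ≤ B := by
    intro k
    induction k with
    | zero => simpa [hG] using hB1
    | succ k ih =>
      rw [hGs, sh00]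
      have hck : |(G k) 1 0| ≤ q := by
        calc |(G k) 1 0| ≤ q ^ (k + 1) := hc k
          _ ≤ q ^ 1 := pow_le_pow_of_le_one hq0.le hlt.le (by omega)
          _ = q := pow_one q
      calc |1 - (G k) 0 0 * (G k) 1 0| ≤ |(1 : ℝ)| + |(G k) 0 0 * (G k) 1 0| := abs_sub _ _
        _ = 1 + |(G k) 0 0| * |(G k) 1 0| := by rw [abs_mul, abs_one]
        _ ≤ 1 + B * q := by
            gcongr
        _ ≤ B := hB2
  have hqt : Tendsto (fun k : ℕ => q ^ (k + 1)) atTop (𝓝 0) :=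
    (tendsto_pow_atTop_nhds_zero_of_lt_one hq0.le hlt).comp (tendsto_add_atTop_nat 1)
  have hct : Tendsto (fun k : ℕ => (G k) 1 0) atTop (𝓝 0) :=
    squeeze_zero_norm (fun k => by simpa using hc k) hqt
  have hact : Tendsto (fun k : ℕ => (G k) 0 0 * (G k) 1 0) atTop (𝓝 0) := by
    refine squeeze_zero_norm (a := fun k : ℕ => B * q ^ (k + 1)) (fun k => ?_) ?_
    · rw [norm_mul, Real.norm_eq_abs, Real.norm_eq_abs]
      exact mul_le_mul (ha k) (hc k) (abs_nonneg _) hB0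
    · simpa using hqt.const_mul B
  have ht00 : Tendsto (fun k : ℕ => (G (k + 1)) 0 0) atTop (𝓝 1) := by
    have : (fun k : ℕ => (G (k + 1)) 0 0) = fun k => 1 - (G k) 0 0 * (G k) 1 0 := by
      funext k; rw [hGs, sh00]
    rw [this]
    simpa using hact.const_sub 1
  have ht11 : Tendsto (fun k : ℕ => (G (k + 1)) 1 1) atTop (𝓝 1) := by
    have : (fun k : ℕ => (G (k + 1)) 1 1) = fun k => 1 + (G k) 0 0 * (G k) 1 0 := by
      funext k; rw [hGs, sh11]
    rw [this]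
    simpa using hact.const_add 1
  have hs : Tendsto (fun k : ℕ => k + 1) atTop atTop := tendsto_add_atTop_nat 1
  have ht01 : Tendsto (fun k : ℕ => (G (k + 1 + 1)) 0 1) atTop (𝓝 1) := by
    have : (fun k : ℕ => (G (k + 1 + 1)) 0 1) = fun k => (G (k + 1)) 0 0 ^ 2 := by
      funext k; rw [hGs, sh01]
    rw [this]
    simpa using ht00.pow 2
  have ht00' : Tendsto (fun k : ℕ => (G (k + 1 + 1)) 0 0) atTop (𝓝 1) := ht00.comp hs
  have ht11' : Tendsto (fun k : ℕ => (G (k + 1 + 1)) 1 1) atTop (𝓝 1) := ht11.comp hs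
  have ht10' : Tendsto (fun k : ℕ => (G (k + 1 + 1)) 1 0) atTop (𝓝 0) := (hct.comp hs).comp hs
  -- entries of `G (k+2) * U (-1)`
  set H : ℕ → SL(2, ℝ) := fun k => G (k + 1 + 1) * U (-1) with hH
  have hH00 : Tendsto (fun k => (H k) 0 0 - 1) atTop (𝓝 0) := by
    have : (fun k => (H k) 0 0 - 1) = fun k => (G (k + 1 + 1)) 0 0 - 1 := by
      funext k; simp [hH, mul_apply', U00, U10]
    rw [this]; simpa using ht00'.sub_const 1
  have hH01 : Tendsto (fun k => (H k) 0 1) atTop (𝓝 0) := by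
    have : (fun k => (H k) 0 1) = fun k => (G (k + 1 + 1)) 0 1 - (G (k + 1 + 1)) 0 0 := by
      funext k; simp [hH, mul_apply', U01, U11]; ring
    rw [this]; simpa using ht01.sub ht00'
  have hH10 : Tendsto (fun k => (H k) 1 0) atTop (𝓝 0) := by
    have : (fun k => (H k) 1 0) = fun k => (G (k + 1 + 1)) 1 0 := by
      funext k; simp [hH, mul_apply', U00, U10]
    rw [this]; exact ht10'
  have hH11 : Tendsto (fun k => (H k) 1 1 - 1) atTop (𝓝 0) := by
    have : (fun k => (H k) 1 1 - 1) = fun k => (G (k + 1 + 1)) 1 1 - (G (k + 1 + 1)) 1 0 - 1 := by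
      funext k; simp [hH, mul_apply', U01, U11]; ring
    rw [this]; simpa using (ht11'.sub ht10').sub_const 1
  have small : ∀ f : ℕ → ℝ, Tendsto f atTop (𝓝 0) → ∀ᶠ k in atTop, |f k| < ε := by
    intro f hf
    have := (Metric.tendsto_nhds.1 hf) ε hd.1
    simpa [Real.dist_eq] using this
  obtain ⟨k, h1, h2, h3, h4⟩ :=
    ((small _ hH00).and ((small _ hH01).and ((small _ hH10).and (small _ hH11)))).exists
  have hHm : H k ∈ Γ := mul_mem (hmem _) (by rw [Uneg]; exact inv_mem hU)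
  have hone := disc4 hd hHm h1 h2 h3 h4
  have hz : (H k) 1 0 = (G (k + 1 + 1)) 1 0 := by
    simp [hH, mul_apply', U00, U10]
  rw [hone, one10] at hz
  exact hne _ hz.symm

lemma shimizu_a {ε : ℝ} {Γ : Subgroup SL(2, ℝ)} (hd : Disc ε Γ) (hU : U 1 ∈ Γ)
    (g : SL(2, ℝ)) (hg : g ∈ Γ) (h0 : g 1 0 = 0) : 1 ≤ |g 0 0| := by
  by_contra hlt
  push Not at hlt
  set q := |g 0 0| with hq
  have hdet := det_eq g
  rw [h0, mul_zero, sub_zero] at hdet
  have ha0 : g 0 0 ≠ 0 := by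
    intro h; rw [h, zero_mul] at hdet; exact zero_ne_one hdet
  have hq0 : 0 < q := abs_pos.2 ha0
  have conj : ∀ x : ℝ, g * U x * g⁻¹ = U (g 0 0 ^ 2 * x) := by
    intro x
    apply ext4
    · simp only [mul_apply', U00, U01, U10, U11, inv00, inv01, inv10, inv11, h0]
      linear_combination hdet
    · simp only [mul_apply', U00, U01, U10, U11, inv00, inv01, inv10, inv11, h0]
      ring
    · simp only [mul_apply', U00, U01, U10, U11, inv00, inv01, inv10, inv11, h0]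
      ring
    · simp only [mul_apply', U00, U01, U10, U11, inv00, inv01, inv10, inv11, h0]
      linear_combination hdet
  have hmem : ∀ k : ℕ, U (q ^ (2 * k)) ∈ Γ := by
    intro k
    induction k with
    | zero => simpa using hU
    | succ k ih =>
      have h1 := mul_mem (mul_mem hg ih) (inv_mem hg)
      rw [conj] at h1
      have h2 : g 0 0 ^ 2 * q ^ (2 * k) = q ^ (2 * (k + 1)) := by
        rw [← sq_abs, ← hq]; ring
      rwa [h2] at h1
  have ht : Tendsto (fun k : ℕ => q ^ (2 * k)) atTop (𝓝 0) := by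
    have h2 : q ^ 2 < 1 := by nlinarith
    have := tendsto_pow_atTop_nhds_zero_of_lt_one (by positivity : 0 ≤ q ^ 2) h2
    simpa [pow_mul] using this
  have hε := (Metric.tendsto_nhds.1 ht) ε hd.1
  obtain ⟨k, hk⟩ := hε.exists
  rw [Real.dist_eq, sub_zero] at hk
  have h1 := disc4 hd (hmem k) (by simp [U00, hd.1]) (by simpa [U01] using hk)
    (by simp [U10, hd.1]) (by simp [U11, hd.1])
  have h2 : (U (q ^ (2 * k))) 0 1 = 0 := by rw [h1]; rfl
  rw [U01] at h2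
  exact (pow_pos hq0 _).ne' h2

end D1aux

open D1aux

/-- Shimizu's lemma -/
theorem shimizu {ε : ℝ} {Γ : Subgroup SL(2, ℝ)} (hd : Disc ε Γ) (hU : U 1 ∈ Γ) :
    ∀ g ∈ Γ, (g 1 0 = 0 ∧ |g 0 0| = 1) ∨ 1 ≤ |g 1 0| := by
  intro g hg
  by_cases h0 : g 1 0 = 0
  · left
    refine ⟨h0, le_antisymm ?_ (shimizu_a hd hU g hg h0)⟩
    have h1 := shimizu_a hd hU g⁻¹ (inv_mem hg) (by rw [inv10, h0, neg_zero])
    rw [inv00] at h1
    have hdet := det_eq g
    rw [h0, mul_zero, sub_zero] at hdet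
    have h2 : |g 0 0| * |g 1 1| = 1 := by rw [← abs_mul, hdet, abs_one]
    nlinarith [abs_nonneg (g 0 0), abs_nonneg (g 1 1)]
  · right
    exact shimizu_c hd hU g hg h0

namespace D1aux

lemma norm_lin_one_sq (a : SL(2, ℝ)) : ‖lin a 1‖ ^ 2 = a 0 0 ^ 2 + a 1 0 ^ 2 := by
  rw [Complex.sq_norm, Complex.normSq_apply, lin_re, lin_im]
  simp
  ring

lemma one_le_norm {ε : ℝ} {Γ : Subgroup SL(2, ℝ)} (hd : Disc ε Γ) (hU : U 1 ∈ Γ)
    {a : SL(2, ℝ)} (ha : a ∈ Γ) : 1 ≤ ‖lin a 1‖ := by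
  have h1 : (1 : ℝ) ^ 2 ≤ ‖lin a 1‖ ^ 2 := by
    rw [norm_lin_one_sq]
    rcases shimizu hd hU a ha with ⟨h0, h1⟩ | h1
    · have : a 0 0 ^ 2 = 1 := by rw [← sq_abs, h1]; norm_num
      rw [h0, this]; norm_num
    · have : 1 ≤ a 1 0 ^ 2 := by
        rw [← sq_abs]; nlinarith
      nlinarith [sq_nonneg (a 0 0)]
  exact le_of_sq_le_sq' h1 (norm_nonneg _)

lemma row_ne (g : SL(2, ℝ)) : 0 < g 1 0 ^ 2 + g 1 1 ^ 2 := by
  have h := det_eq g
  by_contra hc
  have h1 : g 1 0 = 0 := by nlinarith [sq_nonneg (g 1 0), sq_nonneg (g 1 1)]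
  have h2 : g 1 1 = 0 := by nlinarith [sq_nonneg (g 1 0), sq_nonneg (g 1 1)]
  rw [h1, h2] at h
  simp at h

lemma real_aux {D E F T n : ℝ} (hD : 0 < D) (hE : 0 < E) (hF0 : 0 ≤ F) (hn : 0 ≤ n)
    (hFE : D ^ 2 + T ^ 2 = F * E) (hF : F ≤ D * n) : |T| ≤ n * E := by
  apply abs_le_of_sq_le_sq _ (by positivity)
  have hT2 : 0 ≤ T ^ 2 := sq_nonneg _
  have hD2 : 0 ≤ D ^ 2 := sq_nonneg _
  have h1 : T ^ 2 ≤ F * E := by linarith
  have h2 : D ^ 2 ≤ F * E := by linarith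
  have h3 : F * E * D ^ 2 ≤ (D * n) ^ 2 * E ^ 2 := by
    calc F * E * D ^ 2 ≤ F * E * (F * E) := by
          apply mul_le_mul_of_nonneg_left h2; positivity
      _ = F ^ 2 * E ^ 2 := by ring
      _ ≤ (D * n) ^ 2 * E ^ 2 := by
          apply mul_le_mul_of_nonneg_right _ (by positivity)
          exact pow_le_pow_left₀ hF0 hF 2
  have h4 : F * E ≤ (n * E) ^ 2 := by
    have h5 : F * E * D ^ 2 ≤ (n * E) ^ 2 * D ^ 2 := by
      calc F * E * D ^ 2 ≤ (D * n) ^ 2 * E ^ 2 := h3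
        _ = (n * E) ^ 2 * D ^ 2 := by ring
    exact le_of_mul_le_mul_right h5 (by positivity)
  exact h1.trans h4

/-- first displacement estimate -/
lemma rp_mul (g b : SL(2, ℝ)) :
    |rp (g * b) - rp g| ≤ nrm b ^ 2 / (g 1 0 ^ 2 + g 1 1 ^ 2) := by
  have hD := row_ne g
  have hE := row_ne (g * b)
  have hg := det_eq g
  have hb := det_eq b
  set D := g 1 0 ^ 2 + g 1 1 ^ 2 with hDdef
  set E := (g * b) 1 0 ^ 2 + (g * b) 1 1 ^ 2 with hEdef
  have hE' : E = (g 1 0 * b 0 0 + g 1 1 * b 1 0) ^ 2 + (g 1 0 * b 0 1 + g 1 1 * b 1 1) ^ 2 := by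
    rw [hEdef]; simp only [mul_apply']
  set F := (g 1 1 * b 0 0 - g 1 0 * b 1 0) ^ 2 + (g 1 1 * b 0 1 - g 1 0 * b 1 1) ^ 2 with hFdef
  set T := (g 1 1 * b 0 0 - g 1 0 * b 1 0) * (g 1 0 * b 0 0 + g 1 1 * b 1 0) +
    (g 1 1 * b 0 1 - g 1 0 * b 1 1) * (g 1 0 * b 0 1 + g 1 1 * b 1 1) with hTdef
  have key : rp (g * b) - rp g = T / (D * E) := by
    unfold rp
    rw [← hDdef, ← hEdef, div_sub_div _ _ hE.ne' hD.ne', mul_comm D E]
    congr 1
    rw [hE', hDdef, hTdef]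
    simp only [mul_apply']
    linear_combination (T) * hg
  have hFE : D ^ 2 + T ^ 2 = F * E := by
    rw [hFdef, hE', hDdef, hTdef]
    linear_combination (-(g 1 0 ^ 2 + g 1 1 ^ 2) ^ 2 * (b 0 0 * b 1 1 - b 0 1 * b 1 0 + 1)) * hb
  have hF : F ≤ D * nrm b ^ 2 := by
    rw [nrm_sq, hFdef, hDdef]
    nlinarith [sq_nonneg (g 1 1 * b 1 0 + g 1 0 * b 0 0), sq_nonneg (g 1 1 * b 1 1 + g 1 0 * b 0 1)]
  have hF0 : 0 ≤ F := by rw [hFdef]; positivity
  have hT : |T| ≤ nrm b ^ 2 * E := real_aux hD hE hF0 (by positivity) hFE hF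
  rw [key, abs_div, abs_of_pos (by positivity : 0 < D * E), div_le_div_iff₀ (by positivity) hD]
  nlinarith

lemma rp_sub_slope (g : SL(2, ℝ)) (h : 1 ≤ |g 1 0|) :
    |rp g - g 0 0 / g 1 0| ≤ 1 / √(g 1 0 ^ 2 + g 1 1 ^ 2) := by
  have hD := row_ne g
  have hg := det_eq g
  have hc : g 1 0 ≠ 0 := by
    intro h0; rw [h0, abs_zero] at h; linarith
  set D := g 1 0 ^ 2 + g 1 1 ^ 2 with hDdef
  have key : rp g - g 0 0 / g 1 0 = - (g 1 1) / (g 1 0 * D) := by
    unfold rp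
    rw [← hDdef]
    field_simp
    rw [hDdef]
    linear_combination (-g 1 1) * hg
  have hs : 0 < √D := Real.sqrt_pos.2 hD
  have hsq : √D * √D = D := Real.mul_self_sqrt hD.le
  have hd : |g 1 1| ≤ √D := by
    apply Real.abs_le_sqrt
    rw [hDdef]; nlinarith [sq_nonneg (g 1 0)]
  rw [key, abs_div, abs_neg, abs_mul, abs_of_pos hD, div_le_div_iff₀ (by positivity) hs]
  calc |g 1 1| * √D ≤ √D * √D := by gcongr
    _ = 1 * D := by rw [hsq, one_mul]
    _ ≤ |g 1 0| * D := by gcongr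
    _ = 1 * (|g 1 0| * D) := by ring

lemma norm_inv_one (g : SL(2, ℝ)) : ‖lin g⁻¹ 1‖ = √(g 1 0 ^ 2 + g 1 1 ^ 2) := by
  rw [← Real.sqrt_sq (norm_nonneg _), norm_lin_one_sq, inv00, inv10]
  congr 1
  ring

/-- one step of the chain -/
lemma step {ε : ℝ} {Γ : Subgroup SL(2, ℝ)} (hd : Disc ε Γ) (hU : U 1 ∈ Γ) (N : ℕ)
    (e0 : Bool) {a b : SL(2, ℝ)} (ha : a ∈ Γ) (hb : b ∈ Γ) :
    |rp (a⁻¹ * (b * (if e0 then U N else 1))) - rp a⁻¹ -
        N * (open Classical in if e0 = true ∧ (a⁻¹ * b) 1 0 = 0 then (1 : ℝ) else 0)|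
      ≤ 2 * nrm b ^ 2 / ‖lin a 1‖ + 1 / ‖lin (b * (if e0 then U N else 1))⁻¹ (lin a 1)‖ := by
  classical
  have hx : 1 ≤ ‖lin a 1‖ := one_le_norm hd hU ha
  have hx0 : 0 < ‖lin a 1‖ := by linarith
  have hn := one_le_nrm b
  have hDa : (a⁻¹) 1 0 ^ 2 + (a⁻¹) 1 1 ^ 2 = ‖lin a 1‖ ^ 2 := by
    rw [norm_lin_one_sq, inv10, inv11]; ring
  have h1 : |rp (a⁻¹ * b) - rp a⁻¹| ≤ nrm b ^ 2 / ‖lin a 1‖ := by
    refine (rp_mul a⁻¹ b).trans ?_
    rw [hDa]
    apply div_le_div_of_nonneg_left (by positivity) hx0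
    nlinarith
  have hlast : 0 ≤ 1 / ‖lin (b * (if e0 then U N else 1))⁻¹ (lin a 1)‖ := by positivity
  have hnn : nrm b ^ 2 / ‖lin a 1‖ ≤ 2 * nrm b ^ 2 / ‖lin a 1‖ := by
    apply div_le_div_of_nonneg_right _ hx0.le
    nlinarith [sq_nonneg (nrm b)]
  cases e0 with
  | false =>
    simp only [Bool.false_eq_true, if_false, false_and, mul_zero, sub_zero, mul_one]
    simp only [Bool.false_eq_true, if_false, mul_one] at hlast
    linarith
  | true =>
    simp only [if_true, true_and]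
    simp only [if_true] at hlast
    have hmem : a⁻¹ * b ∈ Γ := mul_mem (inv_mem ha) hb
    have hassoc : a⁻¹ * (b * U N) = a⁻¹ * b * U N := by rw [mul_assoc]
    rw [hassoc]
    have hlin : lin (b * U N)⁻¹ (lin a 1) = lin (a⁻¹ * b * U N)⁻¹ 1 := by
      rw [← lin_mul]
      congr 1
      simp [mul_assoc]
    rw [hlin]
    rw [hlin] at hlast
    have hlin2 : lin (a⁻¹ * b)⁻¹ 1 = lin b⁻¹ (lin a 1) := by
      rw [← lin_mul]
      congr 1
      simp
    have hrow : ‖lin a 1‖ ≤ nrm b * ‖lin (a⁻¹ * b)⁻¹ 1‖ := by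
      rw [hlin2]
      have := norm_le_lin b⁻¹ (lin a 1)
      rwa [nrm_inv] at this
    rcases shimizu hd hU _ hmem with ⟨hz, hz1⟩ | hc
    · rw [if_pos hz, mul_one]
      have hrp : rp (a⁻¹ * b * U N) = rp (a⁻¹ * b) + N := by
        have hdet := det_eq (a⁻¹ * b)
        rw [hz, mul_zero, sub_zero] at hdet
        have hsq : (a⁻¹ * b) 0 0 ^ 2 = 1 := by rw [← sq_abs, hz1]; norm_num
        have hd1 : (a⁻¹ * b) 1 1 ≠ 0 := by
          intro h; rw [h, mul_zero] at hdet; exact zero_ne_one hdet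
        unfold rp
        rw [mul_apply' (a⁻¹ * b) (U N), mul_apply' (a⁻¹ * b) (U N), mul_apply' (a⁻¹ * b) (U N),
          mul_apply' (a⁻¹ * b) (U N)]
        rw [U00, U01, U10, U11, hz]
        have e1 : (a⁻¹ * b) 0 0 = (a⁻¹ * b) 1 1 := by
          have : (a⁻¹ * b) 0 0 * ((a⁻¹ * b) 0 0 * (a⁻¹ * b) 1 1) = (a⁻¹ * b) 0 0 := by
            rw [hdet, mul_one]
          rw [← this]
          linear_combination ((a⁻¹ * b) 1 1) * hsq
        rw [e1]
        rw [e1] at hsq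
        generalize (a⁻¹ * b) 1 1 = x at hsq
        generalize (a⁻¹ * b) 0 1 = y
        have q1 : (0 * 1 + x * 0) ^ 2 + (0 * (N : ℝ) + x * 1) ^ 2 = 1 := by
          linear_combination hsq
        have q2 : (0 : ℝ) ^ 2 + x ^ 2 = 1 := by linear_combination hsq
        rw [q1, q2, div_one, div_one]
        linear_combination (N : ℝ) * hsq
      rw [hrp]
      have : rp (a⁻¹ * b) + N - rp a⁻¹ - N = rp (a⁻¹ * b) - rp a⁻¹ := by ring
      rw [this]
      linarith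
    · have hz : (a⁻¹ * b) 1 0 ≠ 0 := by
        intro h0; rw [h0, abs_zero] at hc; linarith
      rw [if_neg hz, mul_zero, sub_zero]
      have hc' : (a⁻¹ * b * U N) 1 0 = (a⁻¹ * b) 1 0 := by
        rw [mul_apply' (a⁻¹ * b) (U N), U00, U10]; ring
      have ha' : (a⁻¹ * b * U N) 0 0 = (a⁻¹ * b) 0 0 := by
        rw [mul_apply' (a⁻¹ * b) (U N), U00, U10]; ring
      have e1 := rp_sub_slope (a⁻¹ * b) hc
      have e2 := rp_sub_slope (a⁻¹ * b * U N) (by rw [hc']; exact hc)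
      rw [hc', ha', ← hc', ← norm_inv_one] at e2
      rw [← norm_inv_one] at e1
      rw [hc'] at e2
      have e3 : 1 / ‖lin (a⁻¹ * b)⁻¹ 1‖ ≤ nrm b ^ 2 / ‖lin a 1‖ := by
        have hp : 0 < ‖lin (a⁻¹ * b)⁻¹ 1‖ := by
          rw [norm_pos_iff]; exact lin_ne_zero one_ne_zero
        rw [div_le_div_iff₀ hp hx0]
        nlinarith
      have tri : rp (a⁻¹ * b * U N) - rp a⁻¹ =
          (rp (a⁻¹ * b * U N) - (a⁻¹ * b) 0 0 / (a⁻¹ * b) 1 0) -
          (rp (a⁻¹ * b) - (a⁻¹ * b) 0 0 / (a⁻¹ * b) 1 0) + (rp (a⁻¹ * b) - rp a⁻¹) := by ring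
      rw [tri]
      have t1 := abs_add_le ((rp (a⁻¹ * b * U N) - (a⁻¹ * b) 0 0 / (a⁻¹ * b) 1 0) -
          (rp (a⁻¹ * b) - (a⁻¹ * b) 0 0 / (a⁻¹ * b) 1 0)) (rp (a⁻¹ * b) - rp a⁻¹)
      have t2 := abs_sub (rp (a⁻¹ * b * U N) - (a⁻¹ * b) 0 0 / (a⁻¹ * b) 1 0)
          (rp (a⁻¹ * b) - (a⁻¹ * b) 0 0 / (a⁻¹ * b) 1 0)
      have t3 : 2 * nrm b ^ 2 / ‖lin a 1‖ = nrm b ^ 2 / ‖lin a 1‖ + nrm b ^ 2 / ‖lin a 1‖ := by
        ring
      rw [t3]
      linarith

end D1aux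

variable {ι : Type} [Fintype ι]

/-- the displacement of the real part along a chain with insertions -/
theorem disp (A : ι → SL(2, ℝ)) {ε : ℝ} (hd : Disc ε (grp A)) (hU : U 1 ∈ grp A) :
    ∃ C₁ : ℝ, 1 ≤ C₁ ∧ ∀ (N n : ℕ) (e : ℕ → Bool) (u : Fin n → ι), ∀ a ∈ grp A,
      |rp (a⁻¹ * wordIns A N n e u) - rp a⁻¹ - N * hits A N n e u a|
        ≤ C₁ * Sx A N n e u (lin a 1) := by
  classical
  set C : ℝ := ∑ i, 2 * nrm (A i) ^ 2 with hC
  have hC0 : 0 ≤ C := Finset.sum_nonneg fun i _ => by positivity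
  have hCi : ∀ i, 2 * nrm (A i) ^ 2 ≤ C := fun i =>
    Finset.single_le_sum (f := fun i => 2 * nrm (A i) ^ 2) (fun i _ => by positivity)
      (Finset.mem_univ i)
  have hA : ∀ i, A i ∈ grp A := fun i => Subgroup.subset_closure (Or.inl ⟨i, rfl⟩)
  have main : ∀ (N n : ℕ) (e : ℕ → Bool) (u : Fin n → ι), ∀ a ∈ grp A,
      |rp (a⁻¹ * wordIns A N n e u) - rp a⁻¹ - N * hits A N n e u a|
        ≤ (C + 1) * Sx A N n e u (lin a 1) - 1 / ‖lin a 1‖ := by
    intro N n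
    induction n with
    | zero =>
      intro e u a ha
      simp only [wordIns, hits, Sx, mul_one, sub_self, Nat.cast_zero, mul_zero, abs_zero]
      have h0 : 0 ≤ 1 / ‖lin a 1‖ := by positivity
      nlinarith
    | succ n ih =>
      intro e u a ha
      set h : SL(2, ℝ) := A (u 0) * (if e 0 then U N else 1) with hh
      have hmem : h ∈ grp A := by
        refine mul_mem (hA _) ?_
        split_ifs
        · exact Unat_mem hU N
        · exact one_mem _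
      have ih' := ih (fun k => e (k + 1)) (fun k => u k.succ) (h⁻¹ * a)
        (mul_mem (inv_mem hmem) ha)
      have hst := step hd hU N (e 0) ha (hA (u 0))
      rw [← hh] at hst
      have e1 : (h⁻¹ * a)⁻¹ * wordIns A N n (fun k => e (k + 1)) (fun k => u k.succ) =
          a⁻¹ * wordIns A N (n + 1) e u := by
        rw [wordIns, ← hh]
        simp [mul_assoc]
      have e2 : (h⁻¹ * a)⁻¹ = a⁻¹ * h := by simp
      have e3 : lin (h⁻¹ * a) 1 = lin h⁻¹ (lin a 1) := lin_mul _ _ _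
      rw [e1, e2, e3] at ih'
      have e4 : ((hits A N (n + 1) e u a : ℕ) : ℝ) =
          (if e 0 = true ∧ (a⁻¹ * A (u 0)) 1 0 = 0 then (1 : ℝ) else 0) +
            hits A N n (fun k => e (k + 1)) (fun k => u k.succ) (h⁻¹ * a) := by
        rw [hits, ← hh]
        push_cast
        congr 1
      have e5 : Sx A N (n + 1) e u (lin a 1) = 1 / ‖lin a 1‖ +
          Sx A N n (fun k => e (k + 1)) (fun k => u k.succ) (lin h⁻¹ (lin a 1)) := by
        rw [Sx, ← hh]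
      rw [e4, e5]
      have tri : rp (a⁻¹ * wordIns A N (n + 1) e u) - rp a⁻¹ -
          N * ((if e 0 = true ∧ (a⁻¹ * A (u 0)) 1 0 = 0 then (1 : ℝ) else 0) +
            hits A N n (fun k => e (k + 1)) (fun k => u k.succ) (h⁻¹ * a)) =
          (rp (a⁻¹ * wordIns A N (n + 1) e u) - rp (a⁻¹ * h) -
            N * hits A N n (fun k => e (k + 1)) (fun k => u k.succ) (h⁻¹ * a)) +
          (rp (a⁻¹ * h) - rp a⁻¹ -
            N * (if e 0 = true ∧ (a⁻¹ * A (u 0)) 1 0 = 0 then (1 : ℝ) else 0)) := by ring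
      rw [tri]
      have t1 := abs_add_le (rp (a⁻¹ * wordIns A N (n + 1) e u) - rp (a⁻¹ * h) -
            N * hits A N n (fun k => e (k + 1)) (fun k => u k.succ) (h⁻¹ * a))
          (rp (a⁻¹ * h) - rp a⁻¹ -
            N * (if e 0 = true ∧ (a⁻¹ * A (u 0)) 1 0 = 0 then (1 : ℝ) else 0))
      have t2 : 2 * nrm (A (u 0)) ^ 2 / ‖lin a 1‖ ≤ C * (1 / ‖lin a 1‖) := by
        rw [div_eq_mul_one_div]
        exact mul_le_mul_of_nonneg_right (hCi _) (by positivity)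
      nlinarith
  refine ⟨C + 1, by linarith, fun N n e u a ha => (main N n e u a ha).trans ?_⟩
  have : 0 ≤ 1 / ‖lin a 1‖ := by positivity
  linarith

end

end Pool.Agent.Helper97.Fuchs
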